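import Pool.Agent.Y508.CH.Gpa
import Pool.Agent.Y481.DX.Defs

set_option autoImplicit false

/-!
Job DX-GPAF (project DX of helper481): the critical value as a function of `χ`, with the functions of
the children; adaptation of `Pool.Agent.Y508.CH` (`Fp.lean`, `Gf.lean`, `Gpa.lean`).
-/

namespace Pool.Agent.Y809.DX

open Finset Filter Topology Metric
open Pool.Agent.W711.HT
open Pool.Agent.Y508.CH (Rc_isOpen Rc_conv Rc_mo Rc_ne Rc_no Rc_ad cau mvt lip Sys pr su pr_lt su_lt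
  pr_su su_pr K1 MM real_mvt sum_su exists_sys)
open Pool.Agent.Y508.CH.Sys (AA comp3 s1d s2d s3d norm_pre)
open scoped Real

/-- The system with the functions `F j` of the children and their derivatives `E j`. -/
structure SysD (r C c : ℝ) (n : ℕ) (s f g : ℂ → ℂ → ℂ → ℂ) (F E : ℕ → ℂ → ℂ) : Prop
    extends Sys r C c s f g where
  h2 : Sys r (C / 2) c s f g
  Fd : ∀ j < n, DifferentiableOn ℂ (F j) (Rc r r)
  Ed : ∀ j < n, DifferentiableOn ℂ (E j) (Rc r r)
  Fb : ∀ j < n, ∀ x ∈ Rc r r, ‖F j x‖ ≤ C / 2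
  FE : ∀ j < n, ∀ x ∈ Rc r r, HasDerivAt (F j) (E j x) x
  F0 : ∀ j < n, F j 0 = 0
  E0 : ∀ j < n, E j 0 = 0
  Ec : ∀ j < n, ∀ x ∈ Rc r r, (deriv (E j) x).re ≤ 0

/-- the iterates -/
noncomputable def it (f : ℂ → ℂ → ℂ → ℂ) (E : ℕ → ℂ → ℂ) (n : ℕ) (a : ℕ → ℤ) : ℕ → ℂ → ℕ → ℂ
  | 0, _, _ => 0
  | k + 1, χ, j => 2 * π * Complex.I / a j * (Complex.I +
      (f (it f E n a k χ j) (it f E n a k χ (pr n j)) χ +
        f (it f E n a k χ j) (it f E n a k χ (su n j)) χ + E j (it f E n a k χ j)))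

lemma it_succ (f : ℂ → ℂ → ℂ → ℂ) (E : ℕ → ℂ → ℂ) (n : ℕ) (a : ℕ → ℤ) (k : ℕ) (χ : ℂ) (j : ℕ) :
    it f E n a (k + 1) χ j = 2 * π * Complex.I / a j * (Complex.I +
      (f (it f E n a k χ j) (it f E n a k χ (pr n j)) χ +
        f (it f E n a k χ j) (it f E n a k χ (su n j)) χ + E j (it f E n a k χ j))) :=
  rfl

namespace SysD

variable {r C c : ℝ} {n : ℕ} {s f g : ℂ → ℂ → ℂ → ℂ} {F E : ℕ → ℂ → ℂ} {a : ℕ → ℤ}

section basic

variable (h : SysD r C c n s f g F E)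
include h

omit h in
lemma AA_half : AA r (C / 2) = AA r C / 2 := by
  unfold AA
  ring

lemma fA' {a b χ : ℂ} (ha : a ∈ Rc (r / 2) (r / 2)) (hb : b ∈ Rc (r / 2) (r / 2))
    (hχ : χ ∈ Rc (r / 2) (r / 2)) : ‖f a b χ‖ ≤ AA r C / 2 := by
  rw [← AA_half]
  exact h.h2.fA ha hb hχ

lemma fL' {a b χ a' b' : ℂ} (ha : a ∈ Rc (r / 2) (r / 2)) (hb : b ∈ Rc (r / 2) (r / 2))
    (ha' : a' ∈ Rc (r / 2) (r / 2)) (hb' : b' ∈ Rc (r / 2) (r / 2))
    (hχ : χ ∈ Rc (r / 2) (r / 2)) :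
    ‖f a b χ - f a' b' χ‖ ≤ AA r C / 2 * (‖a - a'‖ + ‖b - b'‖) := by
  rw [← AA_half]
  exact h.h2.fL ha hb ha' hb' hχ

lemma sL' {a b χ a' b' : ℂ} (ha : a ∈ Rc (r / 2) (r / 2)) (hb : b ∈ Rc (r / 2) (r / 2))
    (ha' : a' ∈ Rc (r / 2) (r / 2)) (hb' : b' ∈ Rc (r / 2) (r / 2))
    (hχ : χ ∈ Rc (r / 2) (r / 2)) :
    ‖s a b χ - s a' b' χ‖ ≤ AA r C / 2 * (‖a - a'‖ + ‖b - b'‖) := by
  rw [← AA_half]
  exact h.h2.sL ha hb ha' hb' hχ

lemma Eb {j : ℕ} (hj : j < n) {x : ℂ} (hx : x ∈ Rc (r - r / 4) (r - r / 4)) :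
    ‖E j x‖ ≤ C / 2 / (r / 4) := by
  have h4 := h.h4
  have hx' : x ∈ Rc r r := Rc_mo (by linarith) hx
  rw [← (h.FE j hj x hx').deriv]
  exact cau h4 (h.Fd j hj) (h.Fb j hj) hx

lemma EA {j : ℕ} (hj : j < n) {x : ℂ} (hx : x ∈ Rc (r / 2) (r / 2)) : ‖E j x‖ ≤ AA r C / 2 := by
  rw [← AA_half]
  exact (h.Eb hj (h.hq hx)).trans h.h2.B1

lemma Eda {j : ℕ} (hj : j < n) {x : ℂ} (hx : x ∈ Rc (r / 2) (r / 2)) :
    ‖deriv (E j) x‖ ≤ AA r C / 2 := by
  have h4 := h.h4
  rw [← AA_half]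
  refine (cau (R := r - r / 4) (δ := r / 4) (B := C / 2 / (r / 4)) h4
    ((h.Ed j hj).mono fun _ hz => Rc_mo (by linarith) hz)
    (fun u hu => h.Eb hj hu) ?_).trans h.h2.B2
  exact Rc_mo (by linarith) hx

lemma EL {j : ℕ} (hj : j < n) {x y : ℂ} (hx : x ∈ Rc (r / 2) (r / 2))
    (hy : y ∈ Rc (r / 2) (r / 2)) : ‖E j x - E j y‖ ≤ AA r C / 2 * ‖x - y‖ :=
  mvt ((h.Ed j hj).mono fun _ hz => h.half hz) (fun _ hu => h.Eda hj hu) hx hy

lemma FL {j : ℕ} (hj : j < n) {x : ℂ} (hx : x ∈ Rc (r / 2) (r / 2)) :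
    ‖F j x‖ ≤ AA r C / 2 * ‖x‖ := by
  have m0 : (0 : ℂ) ∈ Rc (r / 2) (r / 2) := Rc_no (by simpa using half_pos h.hr)
  have e := mvt (φ := F j) (R := r / 2) (B := AA r C / 2)
    ((h.Fd j hj).mono fun _ hz => h.half hz)
    (fun u hu => by
      rw [(h.FE j hj u (h.half hu)).deriv]
      exact h.EA hj hu) hx m0
  rwa [h.F0 j hj, sub_zero, sub_zero] at e

end basic

section iter

variable (h : SysD r C c n s f g F E) (hn : 2 ≤ n) (ha : ∀ j < n, MM r C c ≤ |(a j : ℝ)|)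
include h hn ha

omit hn ha in
lemma step_bd {j : ℕ} (hj : j < n) {χ x y y' : ℂ} (hx : x ∈ Rc (r / 2) (r / 2))
    (hy : y ∈ Rc (r / 2) (r / 2)) (hy' : y' ∈ Rc (r / 2) (r / 2)) (hχ : χ ∈ Rc (r / 2) (r / 2)) :
    ‖2 * (π : ℂ) * Complex.I / (a j : ℂ) * (Complex.I + (f x y χ + f x y' χ + E j x))‖ ≤
      K1 r C / |(a j : ℝ)| := by
  rw [norm_mul, norm_pre]
  have hA := h.AA_pos
  have e1 : ‖Complex.I + (f x y χ + f x y' χ + E j x)‖ ≤ 1 + 2 * AA r C := by
    have h1 := norm_add_le Complex.I (f x y χ + f x y' χ + E j x)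
    have h2 := norm_add_le (f x y χ) (f x y' χ)
    have h2' := norm_add_le (f x y χ + f x y' χ) (E j x)
    have h3 := h.fA' hx hy hχ
    have h4 := h.fA' hx hy' hχ
    have h5 := h.EA hj hx
    rw [Complex.norm_I] at h1
    linarith
  have e2 : K1 r C / |(a j : ℝ)| = 2 * π / |(a j : ℝ)| * (1 + 2 * AA r C) := by
    unfold K1
    ring
  rw [e2]
  exact mul_le_mul_of_nonneg_left e1 (by positivity)

lemma it_bd (k : ℕ) : ∀ χ ∈ Rc (r / 2) (r / 2), ∀ j < n,
    ‖it f E n a k χ j‖ ≤ K1 r C / |(a j : ℝ)| := by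
  induction k with
  | zero =>
    intro χ _ j hj
    have : it f E n a 0 χ j = 0 := rfl
    rw [this, norm_zero]
    have := h.K1_pos
    positivity
  | succ k ih =>
    intro χ hχ j hj
    rw [it_succ]
    exact h.step_bd hj (h.small ha hj (ih χ hχ j hj))
      (h.small ha (pr_lt hn j) (ih χ hχ _ (pr_lt hn j)))
      (h.small ha (su_lt hn j) (ih χ hχ _ (su_lt hn j))) hχ

lemma it_mem (k : ℕ) {χ : ℂ} (hχ : χ ∈ Rc (r / 2) (r / 2)) {j : ℕ} (hj : j < n) :
    it f E n a k χ j ∈ Rc (r / 2) (r / 2) := h.small ha hj (h.it_bd hn ha k χ hχ j hj)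

lemma it_diff (k : ℕ) : ∀ j < n, DifferentiableOn ℂ (fun χ => it f E n a k χ j)
    (Rc (r / 2) (r / 2)) := by
  induction k with
  | zero =>
    intro j _
    exact differentiableOn_const 0
  | succ k ih =>
    intro j hj
    have hm : ∀ i < n, ∀ χ ∈ Rc (r / 2) (r / 2), it f E n a k χ i ∈ Rc r r :=
      fun i hi χ hχ => h.half (h.it_mem hn ha k hχ hi)
    have e1 := comp3 (χ := fun χ : ℂ => χ) h.fd (ih j hj) (ih _ (pr_lt hn j)) differentiableOn_id
      (hm j hj) (hm _ (pr_lt hn j)) (fun χ hχ => h.half hχ)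
    have e2 := comp3 (χ := fun χ : ℂ => χ) h.fd (ih j hj) (ih _ (su_lt hn j)) differentiableOn_id
      (hm j hj) (hm _ (su_lt hn j)) (fun χ hχ => h.half hχ)
    have e3 : DifferentiableOn ℂ (fun χ => E j (it f E n a k χ j)) (Rc (r / 2) (r / 2)) :=
      (h.Ed j hj).comp (ih j hj) (hm j hj)
    exact (((e1.fun_add e2).fun_add e3).const_add Complex.I).const_mul (2 * π * Complex.I / a j)

omit hn in
lemma step_lip {j : ℕ} (hj : j < n) {χ x y y' u v v' : ℂ} (hx : x ∈ Rc (r / 2) (r / 2))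
    (hy : y ∈ Rc (r / 2) (r / 2)) (hy' : y' ∈ Rc (r / 2) (r / 2)) (hu : u ∈ Rc (r / 2) (r / 2))
    (hv : v ∈ Rc (r / 2) (r / 2)) (hv' : v' ∈ Rc (r / 2) (r / 2)) (hχ : χ ∈ Rc (r / 2) (r / 2))
    {ε : ℝ} (e1 : ‖x - u‖ ≤ ε) (e2 : ‖y - v‖ ≤ ε) (e3 : ‖y' - v'‖ ≤ ε) :
    ‖2 * (π : ℂ) * Complex.I / (a j : ℂ) * (Complex.I + (f x y χ + f x y' χ + E j x)) -
      2 * (π : ℂ) * Complex.I / (a j : ℂ) * (Complex.I + (f u v χ + f u v' χ + E j u))‖ ≤
      1 / 2 * ε := by
  have hA := h.AA_pos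
  rw [← mul_sub, norm_mul, norm_pre]
  have hε : 0 ≤ ε := (norm_nonneg _).trans e1
  have h1 := h.fL' hx hy hu hv hχ
  have h2 := h.fL' hx hy' hu hv' hχ
  have h2' := h.EL hj hx hu
  have h3 : ‖Complex.I + (f x y χ + f x y' χ + E j x) -
      (Complex.I + (f u v χ + f u v' χ + E j u))‖ ≤ 4 * AA r C * ε := by
    have h4 : Complex.I + (f x y χ + f x y' χ + E j x) -
        (Complex.I + (f u v χ + f u v' χ + E j u)) =
        (f x y χ - f u v χ) + (f x y' χ - f u v' χ) + (E j x - E j u) := by ring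
    rw [h4]
    have h5 := norm_add_le (f x y χ - f u v χ) (f x y' χ - f u v' χ)
    have h5' := norm_add_le ((f x y χ - f u v χ) + (f x y' χ - f u v' χ)) (E j x - E j u)
    have h6 : AA r C / 2 * (‖x - u‖ + ‖y - v‖) ≤ AA r C / 2 * (2 * ε) :=
      mul_le_mul_of_nonneg_left (by linarith) (by positivity)
    have h7 : AA r C / 2 * (‖x - u‖ + ‖y' - v'‖) ≤ AA r C / 2 * (2 * ε) :=
      mul_le_mul_of_nonneg_left (by linarith) (by positivity)
    have h8 : AA r C / 2 * ‖x - u‖ ≤ AA r C / 2 * ε :=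
      mul_le_mul_of_nonneg_left e1 (by positivity)
    have h9 : 0 ≤ AA r C * ε := by positivity
    linarith
  have h8 : 2 * π / |(a j : ℝ)| ≤ 2 * π / MM r C c :=
    div_le_div_of_nonneg_left (by positivity) (by linarith [h.MM_1]) (ha j hj)
  calc 2 * π / |(a j : ℝ)| * ‖Complex.I + (f x y χ + f x y' χ + E j x) -
        (Complex.I + (f u v χ + f u v' χ + E j u))‖
      ≤ 2 * π / MM r C c * (4 * AA r C * ε) := by
        apply mul_le_mul h8 h3 (norm_nonneg _)
        have := h.MM_1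
        positivity
    _ = 2 * π / MM r C c * (4 * AA r C) * ε := by ring
    _ ≤ _ := mul_le_mul_of_nonneg_right h.MM_4 hε

lemma it_step (k : ℕ) : ∀ χ ∈ Rc (r / 2) (r / 2), ∀ j < n,
    ‖it f E n a (k + 1) χ j - it f E n a k χ j‖ ≤ r * (1 / 2) ^ k := by
  induction k with
  | zero =>
    intro χ hχ j hj
    have : it f E n a 0 χ j = 0 := rfl
    rw [this, sub_zero]
    have h1 := h.it_bd hn ha 1 χ hχ j hj
    have h2 := h.Ka ha hj
    have h3 := h.MM_2
    have := h.hr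
    simp only [zero_add, pow_zero, mul_one]
    linarith
  | succ k ih =>
    intro χ hχ j hj
    rw [it_succ f E n a (k + 1), it_succ f E n a k]
    have := h.step_lip ha hj (h.it_mem hn ha (k + 1) hχ hj)
      (h.it_mem hn ha (k + 1) hχ (pr_lt hn j)) (h.it_mem hn ha (k + 1) hχ (su_lt hn j))
      (h.it_mem hn ha k hχ hj) (h.it_mem hn ha k hχ (pr_lt hn j))
      (h.it_mem hn ha k hχ (su_lt hn j)) hχ (ih χ hχ j hj) (ih χ hχ _ (pr_lt hn j))
      (ih χ hχ _ (su_lt hn j))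
    refine this.trans (le_of_eq ?_)
    rw [pow_succ]
    ring

end iter

end SysD

/-- the fixed point -/
noncomputable def zf (f : ℂ → ℂ → ℂ → ℂ) (E : ℕ → ℂ → ℂ) (n : ℕ) (a : ℕ → ℤ) (χ : ℂ) (j : ℕ) : ℂ :=
  limUnder atTop (fun k => it f E n a k χ j)

/-- the critical value -/
noncomputable def GG (s : ℂ → ℂ → ℂ → ℂ) (F : ℕ → ℂ → ℂ) (n : ℕ) (a : ℕ → ℤ) (z : ℂ → ℕ → ℂ)
    (χ : ℂ) : ℂ :=
  ∑ j ∈ range n, (Complex.I * a j * z χ j ^ 2 / (4 * π) + Complex.I * z χ j + F j (z χ j) +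
    s (z χ j) (z χ ((j + 1) % n)) χ)

namespace SysD

variable {r C c : ℝ} {n : ℕ} {s f g : ℂ → ℂ → ℂ → ℂ} {F E : ℕ → ℂ → ℂ} {a : ℕ → ℤ}
variable (h : SysD r C c n s f g F E) (hn : 2 ≤ n) (ha : ∀ j < n, MM r C c ≤ |(a j : ℝ)|)
include h hn ha

lemma z_tends {χ : ℂ} (hχ : χ ∈ Rc (r / 2) (r / 2)) {j : ℕ} (hj : j < n) :
    Tendsto (fun k => it f E n a k χ j) atTop (𝓝 (zf f E n a χ j)) := by
  have hc : CauchySeq fun k => it f E n a k χ j := by
    refine cauchySeq_of_le_geometric (1 / 2) r (by norm_num) fun k => ?_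
    rw [dist_comm, dist_eq_norm]
    exact h.it_step hn ha k χ hχ j hj
  exact hc.tendsto_limUnder

lemma z_dist (k : ℕ) {χ : ℂ} (hχ : χ ∈ Rc (r / 2) (r / 2)) {j : ℕ} (hj : j < n) :
    dist (it f E n a k χ j) (zf f E n a χ j) ≤ r * (1 / 2) ^ k / (1 - 1 / 2) := by
  refine dist_le_of_le_geometric_of_tendsto (1 / 2) r (by norm_num) (fun k => ?_)
    (h.z_tends hn ha hχ hj) k
  rw [dist_comm, dist_eq_norm]
  exact h.it_step hn ha k χ hχ j hj

lemma z_diff {j : ℕ} (hj : j < n) : DifferentiableOn ℂ (fun χ => zf f E n a χ j)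
    (Rc (r / 2) (r / 2)) := by
  have hu : TendstoUniformlyOn (fun k χ => it f E n a k χ j) (fun χ => zf f E n a χ j) atTop
      (Rc (r / 2) (r / 2)) := by
    rw [Metric.tendstoUniformlyOn_iff]
    intro ε hε
    have h1 : Tendsto (fun k : ℕ => r * (1 / 2 : ℝ) ^ k / (1 - 1 / 2)) atTop
        (𝓝 (r * 0 / (1 - 1 / 2))) :=
      ((tendsto_pow_atTop_nhds_zero_of_lt_one (by norm_num) (by norm_num)).const_mul r).div_const _
    have h2 : r * 0 / (1 - 1 / 2) < ε := by simpa using hε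
    filter_upwards [h1.eventually_lt_const h2] with k hk χ hχ
    rw [dist_comm]
    exact (h.z_dist hn ha k hχ hj).trans_lt hk
  exact hu.tendstoLocallyUniformlyOn.differentiableOn
    (Eventually.of_forall fun k => h.it_diff hn ha k j hj) (Rc_isOpen _ _)

lemma z_bd {χ : ℂ} (hχ : χ ∈ Rc (r / 2) (r / 2)) {j : ℕ} (hj : j < n) :
    ‖zf f E n a χ j‖ ≤ K1 r C / |(a j : ℝ)| :=
  le_of_tendsto (h.z_tends hn ha hχ hj).norm
    (Eventually.of_forall fun k => h.it_bd hn ha k χ hχ j hj)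

lemma z_mem {χ : ℂ} (hχ : χ ∈ Rc (r / 2) (r / 2)) {j : ℕ} (hj : j < n) :
    zf f E n a χ j ∈ Rc (r / 2) (r / 2) := h.small ha hj (h.z_bd hn ha hχ hj)

/-- the fixed point equation -/
lemma z_fix {χ : ℂ} (hχ : χ ∈ Rc (r / 2) (r / 2)) {j : ℕ} (hj : j < n) :
    zf f E n a χ j = 2 * π * Complex.I / a j * (Complex.I +
      (f (zf f E n a χ j) (zf f E n a χ (pr n j)) χ +
        f (zf f E n a χ j) (zf f E n a χ (su n j)) χ + E j (zf f E n a χ j))) := by
  have hp := pr_lt hn j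
  have hs := su_lt hn j
  have t0 := h.z_tends hn ha hχ hj
  have t1 := h.f_tends hχ (h.z_mem hn ha hχ hj) (h.z_mem hn ha hχ hp) t0 (h.z_tends hn ha hχ hp)
  have t2 := h.f_tends hχ (h.z_mem hn ha hχ hj) (h.z_mem hn ha hχ hs) t0 (h.z_tends hn ha hχ hs)
  have tE : Tendsto (fun k => E j (it f E n a k χ j)) atTop (𝓝 (E j (zf f E n a χ j))) :=
    ((h.Ed j hj).differentiableAt ((Rc_isOpen r r).mem_nhds
      (h.half (h.z_mem hn ha hχ hj)))).continuousAt.tendsto.comp t0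
  have t3 : Tendsto (fun k => it f E n a (k + 1) χ j) atTop (𝓝 (2 * π * Complex.I / a j *
      (Complex.I + (f (zf f E n a χ j) (zf f E n a χ (pr n j)) χ +
        f (zf f E n a χ j) (zf f E n a χ (su n j)) χ + E j (zf f E n a χ j))))) :=
    (((t1.add t2).add tE).const_add Complex.I).const_mul _
  exact tendsto_nhds_unique (t0.comp (tendsto_add_atTop_nat 1)) t3

lemma crit {χ : ℂ} (hχ : χ ∈ Rc (r / 2) (r / 2)) {j : ℕ} (hj : j < n) :
    Complex.I * a j * zf f E n a χ j / (2 * π) + Complex.I +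
      (f (zf f E n a χ j) (zf f E n a χ (pr n j)) χ +
        f (zf f E n a χ j) (zf f E n a χ (su n j)) χ + E j (zf f E n a χ j)) = 0 := by
  have h1 := h.z_fix hn ha hχ hj
  have ha0 : (a j : ℂ) ≠ 0 := by
    have h2 := h.apos ha hj
    intro h0
    have h3 : (a j : ℝ) = 0 := by exact_mod_cast h0
    rw [h3, abs_zero] at h2
    exact lt_irrefl _ h2
  have hπ : (π : ℂ) ≠ 0 := by exact_mod_cast Real.pi_ne_zero
  set w := f (zf f E n a χ j) (zf f E n a χ (pr n j)) χ +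
    f (zf f E n a χ j) (zf f E n a χ (su n j)) χ + E j (zf f E n a χ j)
  rw [h1]
  field_simp
  linear_combination (Complex.I + w) * Complex.I_sq

lemma it_even (k : ℕ) : ∀ χ ∈ Rc (r / 2) (r / 2), ∀ j < n,
    it f E n a k (-χ) j = it f E n a k χ j := by
  induction k with
  | zero => intro χ _ j _; rfl
  | succ k ih =>
    intro χ hχ j hj
    rw [it_succ, it_succ, ih χ hχ j hj, ih χ hχ _ (pr_lt hn j), ih χ hχ _ (su_lt hn j),
      h.fev (h.half (h.it_mem hn ha k hχ hj)) (h.half (h.it_mem hn ha k hχ (pr_lt hn j)))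
        (h.half hχ),
      h.fev (h.half (h.it_mem hn ha k hχ hj)) (h.half (h.it_mem hn ha k hχ (su_lt hn j)))
        (h.half hχ)]

lemma z_even {χ : ℂ} (hχ : χ ∈ Rc (r / 2) (r / 2)) {j : ℕ} (hj : j < n) :
    zf f E n a (-χ) j = zf f E n a χ j := by
  have h1 := h.z_tends hn ha hχ hj
  have h2 := h.z_tends hn ha (Rc_ne hχ) hj
  refine tendsto_nhds_unique h2 (h1.congr fun k => ?_)
  exact (h.it_even hn ha k χ hχ j hj).symm

/-! ### The imaginary part -/

lemma im_pos {χ : ℂ} (hχ : χ ∈ Rc (r / 2) (r / 2)) {j : ℕ} (hj : j < n) :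
    0 < (zf f E n a χ j).im := by
  have hA := h.AA_pos
  have hr := h.hr
  have hc := h.hc
  have hK := h.K1_pos
  have hpos := h.apos ha hj
  have hfix := h.z_fix hn ha hχ hj
  have hz := h.z_mem hn ha hχ hj
  have hzb := h.z_bd hn ha hχ hj
  have hp := h.z_mem hn ha hχ (pr_lt hn j)
  have hq := h.z_mem hn ha hχ (su_lt hn j)
  set z := zf f E n a χ j with hzdef
  set p := zf f E n a χ (pr n j)
  set q := zf f E n a χ (su n j)
  set x : ℝ := -(2 * π / a j) with hx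
  have ha0 : (a j : ℝ) ≠ 0 := fun h0 => by rw [h0, abs_zero] at hpos; exact lt_irrefl _ hpos
  have hxabs : |x| = 2 * π / |(a j : ℝ)| := by
    rw [hx, abs_neg, abs_div, abs_of_pos (by positivity : (0 : ℝ) < 2 * π)]
  have hxK : |x| ≤ K1 r C / |(a j : ℝ)| := by
    rw [hxabs]
    apply div_le_div_of_nonneg_right _ hpos.le
    unfold K1
    nlinarith [Real.pi_pos]
  have hxm : (x : ℂ) ∈ Rc (r / 2) (r / 2) :=
    h.small ha hj (by rw [Complex.norm_real, Real.norm_eq_abs]; exact hxK)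
  have m0 : (0 : ℂ) ∈ Rc (r / 2) (r / 2) := Rc_no (by simpa using half_pos hr)
  set φ : ℂ → ℂ := fun u => f u p χ + f u q χ + E j u with hφ
  have hdp : DifferentiableOn ℂ (fun u => f u p χ) (Rc (r / 2) (r / 2)) :=
    (s1d h.fd (h.half hp) (h.half hχ)).mono fun _ hz => h.half hz
  have hdq : DifferentiableOn ℂ (fun u => f u q χ) (Rc (r / 2) (r / 2)) :=
    (s1d h.fd (h.half hq) (h.half hχ)).mono fun _ hz => h.half hz
  have hdE : DifferentiableOn ℂ (E j) (Rc (r / 2) (r / 2)) :=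
    (h.Ed j hj).mono fun _ hz => h.half hz
  have key := real_mvt (φ := φ) (c := 2 * c) (half_pos hr) ((hdp.fun_add hdq).fun_add hdE)
      (fun u hu => by
      have hmem := (Rc_isOpen (r / 2) (r / 2)).mem_nhds hu
      have e := deriv_fun_add (hdp.differentiableAt hmem) (hdq.differentiableAt hmem)
      have e' := deriv_fun_add ((hdp.fun_add hdq).differentiableAt hmem)
        (hdE.differentiableAt hmem)
      have e1 := h.fc u (h.half hu) p (h.half hp) χ (h.half hχ)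
      have e2 := h.fc u (h.half hu) q (h.half hq) χ (h.half hχ)
      have e3 := h.Ec j hj u (h.half hu)
      rw [hφ, e', e, Complex.add_re, Complex.add_re]
      linarith) (by
      show f 0 p χ + f 0 q χ + E j 0 = 0
      rw [h.f0 (h.half hp) (h.half hχ), h.f0 (h.half hq) (h.half hχ), h.E0 j hj, add_zero,
        add_zero]) (x := x) (by
      have := hxm.1
      simpa using this)
  -- the value at `z`
  have hD : ‖φ z‖ ≤ 2 * AA r C * ‖z‖ := by
    have e1 := h.fL' hz hp m0 hp hχ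
    have e2 := h.fL' hz hq m0 hq hχ
    have e3 := h.EL hj hz m0
    rw [h.f0 (h.half hp) (h.half hχ), sub_self, norm_zero, sub_zero, sub_zero, add_zero] at e1
    rw [h.f0 (h.half hq) (h.half hχ), sub_self, norm_zero, sub_zero, sub_zero, add_zero] at e2
    rw [h.E0 j hj, sub_zero, sub_zero] at e3
    have e4 := norm_add_le (f z p χ) (f z q χ)
    have e5 : 0 ≤ AA r C * ‖z‖ := by positivity
    calc ‖φ z‖ ≤ _ := norm_add_le _ _
      _ ≤ _ := by linarith
  have hzx : z = x + (-(x : ℂ)) * Complex.I * φ z := by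
    have e : (x : ℂ) = -(2 * π / a j) := by rw [hx]; push_cast; ring
    have e2 : z = 2 * π * Complex.I / a j * (Complex.I + φ z) := hfix
    rw [e]
    calc z = 2 * π * Complex.I / a j * (Complex.I + φ z) := e2
      _ = (2 * π / a j) * (Complex.I * Complex.I) + (2 * π / a j) * Complex.I * φ z := by ring
      _ = _ := by rw [Complex.I_mul_I]; ring
  have hdist : ‖z - x‖ ≤ |x| * (2 * AA r C * (K1 r C / |(a j : ℝ)|)) := by
    have e : z - x = (-(x : ℂ)) * Complex.I * φ z := by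
      nth_rewrite 1 [hzx]
      ring
    rw [e, norm_mul, norm_mul, norm_neg, Complex.norm_I, mul_one, Complex.norm_real,
      Real.norm_eq_abs]
    apply mul_le_mul_of_nonneg_left _ (abs_nonneg x)
    exact hD.trans (mul_le_mul_of_nonneg_left hzb (by positivity))
  have hφd : ‖φ z - φ x‖ ≤ 2 * AA r C * ‖z - x‖ := by
    have e1 := h.fL' hz hp hxm hp hχ
    have e2 := h.fL' hz hq hxm hq hχ
    have e2' := h.EL hj hz hxm
    rw [sub_self, norm_zero, add_zero] at e1 e2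
    have e3 : φ z - φ x = (f z p χ - f x p χ) + (f z q χ - f x q χ) + (E j z - E j x) := by
      show (f z p χ + f z q χ + E j z) - (f x p χ + f x q χ + E j x) = _
      ring
    rw [e3]
    have e4 := norm_add_le (f z p χ - f x p χ) (f z q χ - f x q χ)
    have e5 : 0 ≤ AA r C * ‖z - x‖ := by positivity
    refine (norm_add_le _ _).trans ?_
    linarith
  have him : z.im = -x * (φ z).re := by
    have e := congrArg Complex.im hzx
    rw [e]
    simp
  have hMM : AA r C * (4 * AA r C * (K1 r C / |(a j : ℝ)|)) ≤ c := by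
    have e1 := h.Ka ha hj
    have e2 := h.MM_6
    calc AA r C * (4 * AA r C * (K1 r C / |(a j : ℝ)|))
        ≤ AA r C * (4 * AA r C * (K1 r C / MM r C c)) := by
          apply mul_le_mul_of_nonneg_left _ hA.le
          exact mul_le_mul_of_nonneg_left e1 (by positivity)
      _ = 4 * AA r C ^ 2 * K1 r C / MM r C c := by ring
      _ ≤ c := e2
  have e4 : |x * ((φ z).re - (φ x).re)| ≤ c * x ^ 2 := by
    rw [abs_mul, ← Complex.sub_re]
    have e5 := Complex.abs_re_le_norm (φ z - φ x)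
    calc |x| * |(φ z - φ x).re| ≤ |x| * (2 * AA r C * (|x| * (2 * AA r C *
          (K1 r C / |(a j : ℝ)|)))) := by
          apply mul_le_mul_of_nonneg_left _ (abs_nonneg x)
          exact e5.trans (hφd.trans (mul_le_mul_of_nonneg_left hdist (by positivity)))
      _ = |x| ^ 2 * (AA r C * (4 * AA r C * (K1 r C / |(a j : ℝ)|))) := by ring
      _ ≤ |x| ^ 2 * c := mul_le_mul_of_nonneg_left hMM (by positivity)
      _ = c * x ^ 2 := by rw [sq_abs]; ring
  have hx2 : 0 < x ^ 2 := by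
    have : x ≠ 0 := by
      intro h0
      rw [h0, abs_zero] at hxabs
      have : 0 < 2 * π / |(a j : ℝ)| := by positivity
      linarith
    positivity
  rw [him]
  have e6 := (abs_le.1 e4).2
  nlinarith

/-- envelope theorem -/
lemma G_der {χ : ℂ} (hχ : χ ∈ Rc (r / 2) (r / 2)) : HasDerivAt (GG s F n a (zf f E n a))
    (∑ j ∈ range n, g (zf f E n a χ j) (zf f E n a χ ((j + 1) % n)) χ) χ := by
  set z := zf f E n a with hz
  have hopen := (Rc_isOpen (r / 2) (r / 2)).mem_nhds hχ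
  have hd : ∀ j < n, HasDerivAt (fun χ => z χ j) (deriv (fun χ => z χ j) χ) χ :=
    fun j hj => ((h.z_diff hn ha hj).differentiableAt hopen).hasDerivAt
  set z' : ℕ → ℂ := fun j => deriv (fun χ => z χ j) χ with hz'
  have ht : ∀ j ∈ range n, HasDerivAt (fun χ => Complex.I * a j * z χ j ^ 2 / (4 * π) +
      Complex.I * z χ j + F j (z χ j) + s (z χ j) (z χ ((j + 1) % n)) χ)
      (Complex.I * a j * (2 * z χ j * z' j) / (4 * π) + Complex.I * z' j + z' j * E j (z χ j) +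
        (z' j * f (z χ j) (z χ (su n j)) χ + z' (su n j) * f (z χ (su n j)) (z χ j) χ +
          1 * g (z χ j) (z χ (su n j)) χ)) χ := by
    intro j hj
    have hj' := mem_range.1 hj
    have hs := su_lt hn j
    have e1 : HasDerivAt (fun χ => z χ j ^ 2) (2 * z χ j * z' j) χ := by
      have h1 := (hd j hj').fun_pow 2
      simpa using h1
    have e2 := ((e1.const_mul (Complex.I * a j)).div_const (4 * (π : ℂ)))
    have e3 := (hd j hj').const_mul Complex.I
    have e4 := h.chain (hd j hj') (hd _ hs) (hasDerivAt_id' χ)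
      (h.half (h.z_mem hn ha hχ hj')) (h.half (h.z_mem hn ha hχ hs)) (h.half hχ)
    have e5 : HasDerivAt (fun χ => F j (z χ j)) (z' j * E j (z χ j)) χ := by
      have h5 := (h.FE j hj' (z χ j) (h.half (h.z_mem hn ha hχ hj'))).comp χ (hd j hj')
      rw [mul_comm] at h5
      exact h5
    exact ((e2.add e3).add e5).add e4
  have hsum := HasDerivAt.fun_sum ht
  have e : (∑ j ∈ range n, (Complex.I * a j * (2 * z χ j * z' j) / (4 * π) + Complex.I * z' j +
        z' j * E j (z χ j) + (z' j * f (z χ j) (z χ (su n j)) χ + z' (su n j) * f (z χ (su n j)) (z χ j) χ +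
          1 * g (z χ j) (z χ (su n j)) χ))) =
      ∑ j ∈ range n, g (z χ j) (z χ ((j + 1) % n)) χ := by
    have e1 : ∑ j ∈ range n, z' (su n j) * f (z χ (su n j)) (z χ j) χ =
        ∑ j ∈ range n, z' j * f (z χ j) (z χ (pr n j)) χ := by
      rw [← sum_su hn fun j => z' j * f (z χ j) (z χ (pr n j)) χ]
      refine sum_congr rfl fun j hj => ?_
      simp only [pr_su hn (mem_range.1 hj)]
    have e2 : ∑ j ∈ range n, z' j * (Complex.I * a j * z χ j / (2 * π) + Complex.I +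
        (f (z χ j) (z χ (pr n j)) χ + f (z χ j) (z χ (su n j)) χ + E j (z χ j))) = 0 := by
      refine sum_eq_zero fun j hj => ?_
      rw [h.crit hn ha hχ (mem_range.1 hj), mul_zero]
    have e3 : ∀ j, Complex.I * a j * (2 * z χ j * z' j) / (4 * (π : ℂ)) =
        z' j * (Complex.I * a j * z χ j / (2 * π)) := by
      intro j
      have hπ : (π : ℂ) ≠ 0 := by exact_mod_cast Real.pi_ne_zero
      field_simp
      ring
    simp only [mul_add, sum_add_distrib] at e2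
    simp only [sum_add_distrib, e1, e3, one_mul]
    have e4 : ∑ j ∈ range n, Complex.I * z' j = ∑ j ∈ range n, z' j * Complex.I :=
      sum_congr rfl fun j _ => mul_comm _ _
    rw [e4]
    have e5 : ∑ j ∈ range n, g (z χ j) (z χ (su n j)) χ =
      ∑ j ∈ range n, g (z χ j) (z χ ((j + 1) % n)) χ := rfl
    rw [← e5]
    linear_combination e2
  rw [e] at hsum
  exact hsum

lemma G_diff : DifferentiableOn ℂ (GG s F n a (zf f E n a)) (Rc (r / 2) (r / 2)) :=
  fun _ hχ => (h.G_der hn ha hχ).differentiableAt.differentiableWithinAt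

lemma G_even {χ : ℂ} (hχ : χ ∈ Rc (r / 2) (r / 2)) :
    GG s F n a (zf f E n a) (-χ) = GG s F n a (zf f E n a) χ := by
  unfold GG
  refine sum_congr rfl fun j hj => ?_
  have hj' := mem_range.1 hj
  have hs : (j + 1) % n < n := su_lt hn j
  rw [h.z_even hn ha hχ hj', h.z_even hn ha hχ hs, h.evc _ (h.half (h.z_mem hn ha hχ hj')) _
    (h.half (h.z_mem hn ha hχ hs)) _ (h.half hχ)]

/-- the second derivative of one term -/
lemma term2 {χ : ℂ} (hχ : χ ∈ Rc (r / 4) (r / 4)) {i j : ℕ} (hi : i < n) (hj : j < n) :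
    DifferentiableAt ℂ (fun w => g (zf f E n a w i) (zf f E n a w j) w) χ ∧
    (deriv (fun w => g (zf f E n a w i) (zf f E n a w j) w) χ).re ≤ -(c / 2) ∧
    ‖deriv (fun w => g (zf f E n a w i) (zf f E n a w j) w) χ‖ ≤ AA r C + c / 2 := by
  have hr := h.hr
  have hA := h.AA_pos
  have hχ' : χ ∈ Rc (r / 2) (r / 2) := Rc_mo (by linarith) hχ
  have mi := h.z_mem hn ha hχ' hi
  have mj := h.z_mem hn ha hχ' hj
  set α := zf f E n a χ i with hα
  set β := zf f E n a χ j with hβ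
  have hopen := (Rc_isOpen (r / 2) (r / 2)).mem_nhds hχ'
  have d1 : DifferentiableOn ℂ (fun w => g (zf f E n a w i) (zf f E n a w j) w)
      (Rc (r / 2) (r / 2)) :=
    comp3 (χ := fun χ : ℂ => χ) h.gd (h.z_diff hn ha hi) (h.z_diff hn ha hj) differentiableOn_id
      (fun χ hχ => h.half (h.z_mem hn ha hχ hi)) (fun χ hχ => h.half (h.z_mem hn ha hχ hj))
      (fun χ hχ => h.half hχ)
  have d2 : DifferentiableOn ℂ (fun w => g α β w) (Rc (r / 2) (r / 2)) :=
    (s3d h.gd (h.half mi) (h.half mj)).mono fun _ hz => h.half hz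
  have hk : ‖deriv (fun w => g (zf f E n a w i) (zf f E n a w j) w - g α β w) χ‖ ≤ c / 2 := by
    refine (cau (R := r / 2) (δ := r / 4) (B := AA r C * (4 * (K1 r C / MM r C c))) h.h4
      (d1.fun_sub d2) (fun w hw => ?_) (Rc_mo (by linarith) hχ)).trans h.MM_5
    refine (h.gL (h.z_mem hn ha hw hi) (h.z_mem hn ha hw hj) mi mj hw).trans ?_
    apply mul_le_mul_of_nonneg_left _ hA.le
    have b1 := (h.z_bd hn ha hw hi).trans (h.Ka ha hi)
    have b2 := (h.z_bd hn ha hw hj).trans (h.Ka ha hj)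
    have b3 := (h.z_bd hn ha hχ' hi).trans (h.Ka ha hi)
    have b4 := (h.z_bd hn ha hχ' hj).trans (h.Ka ha hj)
    have b5 := norm_sub_le (zf f E n a w i) α
    have b6 := norm_sub_le (zf f E n a w j) β
    linarith
  have e := deriv_fun_sub (d1.differentiableAt hopen) (d2.differentiableAt hopen)
  rw [e] at hk
  set X := deriv (fun w => g (zf f E n a w i) (zf f E n a w j) w) χ
  set Y := deriv (fun w => g α β w) χ with hY
  have y1 : Y.re ≤ -c := h.gc _ (h.half mi) _ (h.half mj) _ (h.half hχ')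
  have y2 : ‖Y‖ ≤ AA r C := h.gda mi mj hχ'
  refine ⟨d1.differentiableAt hopen, ?_, ?_⟩
  · have := (Complex.re_le_norm (X - Y)).trans hk
    rw [Complex.sub_re] at this
    linarith
  · have := norm_add_le (X - Y) Y
    rw [sub_add_cancel] at this
    linarith

lemma G_der2 {χ : ℂ} (hχ : χ ∈ Rc (r / 4) (r / 4)) :
    (deriv (deriv (GG s F n a (zf f E n a))) χ).re ≤ -(c / 2 * n) ∧
      ‖deriv (deriv (GG s F n a (zf f E n a))) χ‖ ≤ (AA r C + c / 2) * n := by
  have hr := h.hr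
  have hχ' : χ ∈ Rc (r / 2) (r / 2) := Rc_mo (by linarith) hχ
  have hopen := (Rc_isOpen (r / 2) (r / 2)).mem_nhds hχ'
  have e : deriv (GG s F n a (zf f E n a)) =ᶠ[𝓝 χ]
      fun w => ∑ j ∈ range n, g (zf f E n a w j) (zf f E n a w ((j + 1) % n)) w := by
    filter_upwards [hopen] with w hw
    exact (h.G_der hn ha hw).deriv
  have hdd : ∀ j ∈ range n, DifferentiableAt ℂ
      (fun w => g (zf f E n a w j) (zf f E n a w ((j + 1) % n)) w) χ := fun j hj =>
    (h.term2 hn ha hχ (mem_range.1 hj) (su_lt hn j)).1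
  rw [e.deriv_eq, deriv_fun_sum hdd]
  constructor
  · rw [Complex.re_sum]
    refine (sum_le_sum fun j hj => (h.term2 hn ha hχ (mem_range.1 hj) (su_lt hn j)).2.1).trans ?_
    rw [sum_const, card_range, nsmul_eq_mul]
    linarith
  · refine (norm_sum_le _ _).trans ?_
    refine (sum_le_sum fun j hj => (h.term2 hn ha hχ (mem_range.1 hj) (su_lt hn j)).2.2).trans ?_
    rw [sum_const, card_range, nsmul_eq_mul]
    linarith

lemma G_close {χ : ℂ} (hχ : χ ∈ Rc (r / 2) (r / 2)) {m : ℝ} (hm : ∀ j < n, m ≤ |(a j : ℝ)|)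
    (hm0 : 0 < m) : ‖GG s F n a (zf f E n a) χ - n * s 0 0 χ‖ ≤
      K1 r C * (K1 r C + 2 + 2 * AA r C) * n / m := by
  have hA := h.AA_pos
  have hK := h.K1_pos
  have hr := h.hr
  have m0 : (0 : ℂ) ∈ Rc (r / 2) (r / 2) := Rc_no (by simpa using half_pos hr)
  have e : GG s F n a (zf f E n a) χ - n * s 0 0 χ = ∑ j ∈ range n,
      (Complex.I * a j * zf f E n a χ j ^ 2 / (4 * π) + Complex.I * zf f E n a χ j +
        F j (zf f E n a χ j) + (s (zf f E n a χ j) (zf f E n a χ ((j + 1) % n)) χ - s 0 0 χ)) := by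
    unfold GG
    have : (n : ℂ) * s 0 0 χ = ∑ _j ∈ range n, s 0 0 χ := by
      rw [sum_const, card_range, nsmul_eq_mul]
    rw [this, ← sum_sub_distrib]
    exact sum_congr rfl fun j _ => by ring
  rw [e]
  refine (norm_sum_le _ _).trans ?_
  have ht : ∀ j ∈ range n, ‖Complex.I * a j * zf f E n a χ j ^ 2 / (4 * π) +
      Complex.I * zf f E n a χ j + F j (zf f E n a χ j) + (s (zf f E n a χ j) (zf f E n a χ ((j + 1) % n)) χ - s 0 0 χ)‖ ≤
      K1 r C * (K1 r C + 2 + 2 * AA r C) / m := by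
    intro j hj
    have hj' := mem_range.1 hj
    have hs : (j + 1) % n < n := su_lt hn j
    have b1 := h.z_bd hn ha hχ hj'
    have b2 := h.z_bd hn ha hχ hs
    have p1 := h.apos ha hj'
    have c1 : K1 r C / |(a j : ℝ)| ≤ K1 r C / m :=
      div_le_div_of_nonneg_left hK.le hm0 (hm j hj')
    have c2 : K1 r C / |(a ((j + 1) % n) : ℝ)| ≤ K1 r C / m :=
      div_le_div_of_nonneg_left hK.le hm0 (hm _ hs)
    have t1 : ‖Complex.I * a j * zf f E n a χ j ^ 2 / (4 * (π : ℂ))‖ ≤ K1 r C * (K1 r C / m) := by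
      rw [norm_div, norm_mul, norm_mul, Complex.norm_I, one_mul, norm_pow, norm_mul]
      have h4 : ‖(π : ℂ)‖ = π := by simp [abs_of_pos Real.pi_pos]
      have h5 : ‖(4 : ℂ)‖ = 4 := by simp
      have h6 : ‖(a j : ℂ)‖ = |(a j : ℝ)| := by
        rw [← Complex.ofReal_intCast, Complex.norm_real, Real.norm_eq_abs]
      rw [h4, h5, h6, div_le_iff₀ (by positivity)]
      have h7 : ‖zf f E n a χ j‖ ^ 2 ≤ (K1 r C / |(a j : ℝ)|) ^ 2 :=
        pow_le_pow_left₀ (norm_nonneg _) b1 2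
      have h8 : |(a j : ℝ)| * ‖zf f E n a χ j‖ ^ 2 ≤ K1 r C * (K1 r C / |(a j : ℝ)|) := by
        refine (mul_le_mul_of_nonneg_left h7 p1.le).trans (le_of_eq ?_)
        field_simp
      have h9 : K1 r C * (K1 r C / |(a j : ℝ)|) ≤ K1 r C * (K1 r C / m) :=
        mul_le_mul_of_nonneg_left c1 hK.le
      have h10 : 0 ≤ K1 r C * (K1 r C / m) := by positivity
      have h11 : (1 : ℝ) ≤ 4 * π := by linarith [Real.pi_gt_three]
      nlinarith
    have t2 : ‖Complex.I * zf f E n a χ j‖ ≤ K1 r C / m := by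
      rw [norm_mul, Complex.norm_I, one_mul]
      linarith
    have t3 : ‖s (zf f E n a χ j) (zf f E n a χ ((j + 1) % n)) χ - s 0 0 χ‖ ≤
        AA r C / 2 * (2 * (K1 r C / m)) := by
      refine (h.sL' (h.z_mem hn ha hχ hj') (h.z_mem hn ha hχ hs) m0 m0 hχ).trans ?_
      apply mul_le_mul_of_nonneg_left _ (by positivity)
      rw [sub_zero, sub_zero]
      linarith
    have t3' : ‖F j (zf f E n a χ j)‖ ≤ AA r C / 2 * (K1 r C / m) := by
      refine (h.FL hj' (h.z_mem hn ha hχ hj')).trans ?_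
      apply mul_le_mul_of_nonneg_left _ (by positivity)
      linarith
    have t6 : 0 ≤ AA r C * (K1 r C / m) := by positivity
    refine (norm_add_le _ _).trans ((add_le_add_left (norm_add_le _ _) _).trans
      ((add_le_add_left (add_le_add_left (norm_add_le _ _) _) _).trans ?_))
    have t4 : K1 r C * (K1 r C + 2 + 2 * AA r C) / m =
        K1 r C * (K1 r C / m) + 2 * (K1 r C / m) + AA r C * (2 * (K1 r C / m)) := by
      field_simp
    have t5 : 0 ≤ K1 r C / m := by positivity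
    rw [t4]
    linarith
  refine (sum_le_sum ht).trans (le_of_eq ?_)
  rw [sum_const, card_range, nsmul_eq_mul]
  ring

end SysD

/-! ### The data -/

lemma sys_mono {r r' C C' c : ℝ} {s f g : ℂ → ℂ → ℂ → ℂ} (h : Sys r C c s f g) (hr : 0 < r')
    (hr' : r' ≤ r) (hC : C ≤ C') : Sys r' C' c s f g := by
  have hsub : ∀ {z : ℂ}, z ∈ Rc r' r' → z ∈ Rc r r := fun hz => Rc_mo hr' hz
  have hprod : Rc r' r' ×ˢ Rc r' r' ×ˢ Rc r' r' ⊆ Rc r r ×ˢ Rc r r ×ˢ Rc r r := by
    rintro p ⟨h1, h2, h3⟩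
    exact ⟨hsub h1, hsub h2, hsub h3⟩
  exact
    { hr := hr
      hC := h.hC.trans_le hC
      hc := h.hc
      sd := h.sd.mono hprod
      fd := h.fd.mono hprod
      gd := h.gd.mono hprod
      sb := fun a ha b hb χ hχ => (h.sb a (hsub ha) b (hsub hb) χ (hsub hχ)).trans hC
      f1 := fun a ha b hb χ hχ => h.f1 a (hsub ha) b (hsub hb) χ (hsub hχ)
      f2 := fun a ha b hb χ hχ => h.f2 a (hsub ha) b (hsub hb) χ (hsub hχ)
      g1 := fun a ha b hb χ hχ => h.g1 a (hsub ha) b (hsub hb) χ (hsub hχ)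
      ev := fun a ha b hb χ hχ => h.ev a (hsub ha) b (hsub hb) χ (hsub hχ)
      evc := fun a ha b hb χ hχ => h.evc a (hsub ha) b (hsub hb) χ (hsub hχ)
      fc := fun a ha b hb χ hχ => h.fc a (hsub ha) b (hsub hb) χ (hsub hχ)
      gc := fun a ha b hb χ hχ => h.gc a (hsub ha) b (hsub hb) χ (hsub hχ) }

lemma deriv_zero_of_even {F : ℂ → ℂ} {R : ℝ} (hR : 0 < R)
    (hev : ∀ ψ ∈ Rc R R, F (-ψ) = F ψ) (hd : DifferentiableOn ℂ F (Rc R R)) : deriv F 0 = 0 := by
  have m0 : (0 : ℂ) ∈ Rc R R := Rc_no (by simpa using hR)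
  have h1 : HasDerivAt F (deriv F 0) 0 :=
    (hd.differentiableAt ((Rc_isOpen R R).mem_nhds m0)).hasDerivAt
  have h2 : HasDerivAt (fun w : ℂ => F (-w)) (-deriv F 0) 0 := by
    have h3 : HasDerivAt F (deriv F 0) (-(0 : ℂ)) := by simpa using h1
    have h4 := h3.comp (0 : ℂ) (hasDerivAt_neg (0 : ℂ))
    rw [mul_neg_one] at h4
    exact h4
  have h3 : HasDerivAt F (-deriv F 0) 0 := by
    refine h2.congr_of_eventuallyEq ?_
    filter_upwards [(Rc_isOpen R R).mem_nhds m0] with w hw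
    exact (hev w hw).symm
  have := h1.unique h3
  linear_combination (1 / 2 : ℂ) * this

open Pool.Agent.Y837.CB (P1 P3)

theorem gpaf : Pool.Agent.Y481.DX.S_GPAF := by
  intro ρ₀ c C s dl hs R₀ B₀ hR₀ hB₀
  obtain ⟨r₁, hr₁, hrρ₁, h₁⟩ := exists_sys hs
  set r : ℝ := min r₁ R₀ with hrdef
  have hr : 0 < r := lt_min hr₁ hR₀
  have hr1 : r ≤ r₁ := min_le_left _ _
  have hrR : r ≤ R₀ := min_le_right _ _
  have hrρ : r ≤ ρ₀ := hr1.trans hrρ₁
  set D : ℝ := max C B₀ with hD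
  have hCD : C ≤ D := le_max_left _ _
  have hBD : B₀ ≤ D := le_max_right _ _
  have hC := h₁.hC
  have hD0 : 0 < D := hC.trans_le hCD
  have hS : Sys r (2 * D) c s (P1 dl) (P3 dl) := sys_mono h₁ hr hr1 (by linarith)
  have hS2 : Sys r (2 * D / 2) c s (P1 dl) (P3 dl) := sys_mono h₁ hr hr1 (by linarith)
  have hA := hS.AA_pos
  have hK := hS.K1_pos
  have hc := hS.hc
  have hM : 0 < MM r (2 * D) c := by linarith [hS.MM_1]
  refine ⟨r / 4, c / 2, AA r (2 * D) + c / 2,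
    K1 r (2 * D) * (K1 r (2 * D) + 2 + 2 * AA r (2 * D)) + K1 r (2 * D),
    MM r (2 * D) c, by positivity, by linarith, by linarith, by positivity, by positivity,
    by positivity, hM, ?_⟩
  intro n hn Y F hDG a ha
  have hsub : ∀ {z : ℂ}, z ∈ Rc r r → z ∈ Rc R₀ R₀ := fun hz => Rc_mo hrR hz
  have hFd : ∀ j < n, DifferentiableOn ℂ (F j) (Rc r r) := fun j hj =>
    (hDG j hj).Fan.mono fun _ hz => hsub hz
  have h : SysD r (2 * D) c n s (P1 dl) (P3 dl) F (fun j => deriv (F j)) :=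
    { toSys := hS
      h2 := hS2
      Fd := hFd
      Ed := fun j hj => (hFd j hj).deriv (Rc_isOpen r r)
      Fb := fun j hj x hx => ((hDG j hj).Fbd x (hsub hx)).trans (by linarith)
      FE := fun j hj x hx =>
        ((hFd j hj).differentiableAt ((Rc_isOpen r r).mem_nhds hx)).hasDerivAt
      F0 := fun j hj => (hDG j hj).F0
      E0 := fun j hj => deriv_zero_of_even hR₀ (hDG j hj).Fev (hDG j hj).Fan
      Ec := fun j hj x hx => (hDG j hj).Fconc x (hsub hx) }
  have hin : ∀ {χ : ℂ}, χ ∈ Rc (r / 4) (r / 4) → χ ∈ Rc (r / 2) (r / 2) :=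
    fun hχ => Rc_mo (by linarith) hχ
  refine ⟨GG s F n a (zf (P1 dl) (fun j => deriv (F j)) n a),
    zf (P1 dl) (fun j => deriv (F j)) n a,
    (h.G_diff hn ha).mono fun _ hχ => hin hχ, ?_, ?_, ?_⟩
  · intro χ hχ
    obtain ⟨e1, e2⟩ := h.G_der2 hn ha hχ
    exact ⟨h.G_even hn ha (hin hχ), e1, e2⟩
  · intro χ hχ
    have hχ' := hin hχ
    refine ⟨fun j hj => ?_, ?_, rfl⟩
    · have hz := h.z_bd hn ha hχ' hj
      have hp := h.apos ha hj
      refine ⟨?_, ?_, ?_, h.im_pos hn ha hχ' hj, ?_, ?_⟩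
      · refine hz.trans ?_
        apply div_le_div_of_nonneg_right _ hp.le
        have : 0 < K1 r (2 * D) * (K1 r (2 * D) + 2 + 2 * AA r (2 * D)) := by positivity
        linarith
      · exact Rc_mo (by linarith) (h.z_mem hn ha hχ' hj)
      · exact Rc_mo (by linarith) (h.z_mem hn ha hχ' hj)
      · exact hz.trans ((h.Ka ha hj).trans h.MM_3)
      · have hi : (j + 1) % n < n := su_lt hn j
        have hi2 : ((j + 1) % n + 1) % n < n := su_lt hn _
        have m0 := h.half (h.z_mem hn ha hχ' hj)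
        have m1 := h.half (h.z_mem hn ha hχ' hi)
        have m2 := h.half (h.z_mem hn ha hχ' hi2)
        have e1 := (h.f2 _ m0 _ m1 _ (h.half hχ')).deriv
        have e2 := (h.f1 _ m1 _ m2 _ (h.half hχ')).deriv
        rw [e1, e2]
        have e3 := h.crit hn ha hχ' hi
        have e4 : pr n ((j + 1) % n) = j := pr_su hn hj
        have e5 : su n ((j + 1) % n) = ((j + 1) % n + 1) % n := rfl
        rw [e4, e5] at e3
        linear_combination e3
    · rw [(h.G_der hn ha hχ').deriv]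
      refine sum_congr rfl fun j hj => ?_
      have hj' := mem_range.1 hj
      exact (h.g1 _ (h.half (h.z_mem hn ha hχ' hj')) _
        (h.half (h.z_mem hn ha hχ' (su_lt hn j))) _ (h.half hχ')).deriv.symm
  · intro m hm hm0 χ hχ
    refine (h.G_close hn ha (hin hχ) hm hm0).trans ?_
    apply div_le_div_of_nonneg_right _ hm0.le
    apply mul_le_mul_of_nonneg_right _ (Nat.cast_nonneg n)
    linarith

end Pool.Agent.Y809.DX
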